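import Mathlib
import Pool.Agent.Y501.C0.Final

/-!
# `C⁰`-small perturbations of a metric on the torus need not immerse isometrically

For every smooth Riemannian metric `g₀` on the two-dimensional torus (in particular for every
metric induced by a smooth embedding into Euclidean 3-space) and every `ε > 0` there is a smooth
metric `g` with `‖g - g₀‖_{C⁰} < ε` which has no smooth isometric immersion (a fortiori no smooth
isometric embedding) into Euclidean 3-space.
-/

set_option autoImplicit false

namespace Pool.Agent.Results.MP_665542_gt.NoC0Stability

open Pool.Agent.Y501.C0

theorem result : ∀ (g₀ : TorusMetric) (ε : ℝ), 0 < ε →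
    ∃ g : TorusMetric, C0Near g₀ g ε ∧ ¬ ∃ f, IsIsometricImmersion g f :=
  no_stability

end Pool.Agent.Results.MP_665542_gt.NoC0Stability
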